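import Pool.Agent.TH552.BB.Trans

/-!
# Transversality of binary forms, in `MvPolynomial (Fin 2) K`
-/

set_option autoImplicit false

namespace Pool.Agent.TH552.BB

open Module

variable {K : Type*} [Field K]

/-- the coefficient of `x ^ k y ^ (D - k)` -/
noncomputable def bc (D : ℕ) (F : MvPolynomial (Fin 2) K) (k : ℕ) : K :=
  F.coeff (Finsupp.single 0 k + Finsupp.single 1 (D - k))

theorem aeval_bc {R : Type*} [CommRing R] [Algebra K R] {F : MvPolynomial (Fin 2) K} {D : ℕ}
    (hF : F.IsHomogeneous D) (v : Fin 2 → R) :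
    MvPolynomial.aeval v F = ∑ k ∈ Finset.range (D + 1), bc D F k • (v 0 ^ k * v 1 ^ (D - k)) := by
  classical
  rw [MvPolynomial.aeval_def, MvPolynomial.eval₂_eq']
  have hdeg : ∀ d ∈ F.support, d 0 + d 1 = D := by
    intro d hd
    have h1 : d.degree = D := by
      by_contra h
      exact (MvPolynomial.mem_support_iff.1 hd) (hF.coeff_eq_zero h)
    rw [← h1, Finsupp.degree_eq_sum, Fin.sum_univ_two]
  have hd2 : ∀ d ∈ F.support, Finsupp.single 0 (d 0) + Finsupp.single 1 (D - d 0) = d := by
    intro d hd
    have := hdeg d hd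
    ext i
    fin_cases i
    · simp
    · simp
      omega
  refine Finset.sum_bij_ne_zero (fun d _ _ => d 0) ?_ ?_ ?_ ?_
  · intro d hd _
    have := hdeg d hd
    exact Finset.mem_range.2 (by omega)
  · intro d hd _ d' hd' _ h
    rw [← hd2 d hd, ← hd2 d' hd', h]
  · intro k hk hne
    refine ⟨Finsupp.single 0 k + Finsupp.single 1 (D - k), ?_, ?_, ?_⟩
    · rw [MvPolynomial.mem_support_iff]
      intro h0
      apply hne
      unfold bc
      rw [h0, zero_smul]
    · have hk' := Finset.mem_range.1 hk
      rw [Fin.prod_univ_two]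
      intro h0
      apply hne
      unfold bc
      rw [Algebra.smul_def, ← h0]
      simp
    · simp
  · intro d hd _
    have h1 := hdeg d hd
    have h2 := hd2 d hd
    unfold bc
    rw [h2, Algebra.smul_def, Fin.prod_univ_two]
    congr 3
    omega

/-- the dehomogenisation -/
noncomputable def deh : MvPolynomial (Fin 2) K →ₗ[K] Polynomial K :=
  (MvPolynomial.aeval ![(Polynomial.X : Polynomial K), 1]).toLinearMap

theorem deh_apply (F : MvPolynomial (Fin 2) K) :
    deh F = MvPolynomial.aeval ![(Polynomial.X : Polynomial K), 1] F := rfl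

theorem deh_eq {F : MvPolynomial (Fin 2) K} {D : ℕ} (hF : F.IsHomogeneous D) :
    deh F = ∑ k ∈ Finset.range (D + 1), bc D F k • Polynomial.X ^ k := by
  rw [deh_apply, aeval_bc hF]
  refine Finset.sum_congr rfl fun k _ => ?_
  simp

theorem coeff_deh {F : MvPolynomial (Fin 2) K} {D : ℕ} (hF : F.IsHomogeneous D) {k : ℕ}
    (hk : k ≤ D) : (deh F).coeff k = bc D F k := by
  rw [deh_eq hF, Polynomial.finsetSum_coeff, Finset.sum_eq_single k]
  · rw [Polynomial.coeff_smul, Polynomial.coeff_X_pow, if_pos rfl, smul_eq_mul, mul_one]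
  · intro l _ hl
    rw [Polynomial.coeff_smul, Polynomial.coeff_X_pow, if_neg (Ne.symm hl), smul_zero]
  · intro h
    exact absurd (Finset.mem_range.2 (by omega)) h

theorem natDegree_deh {F : MvPolynomial (Fin 2) K} {D : ℕ} (hF : F.IsHomogeneous D) :
    (deh F).natDegree ≤ D := by
  rw [deh_eq hF]
  refine Polynomial.natDegree_sum_le_of_forall_le _ _ fun k hk => ?_
  refine (Polynomial.natDegree_smul_le _ _).trans ?_
  rw [Polynomial.natDegree_X_pow]
  have := Finset.mem_range.1 hk
  omega

theorem eq_zero_of_deh {F : MvPolynomial (Fin 2) K} {D : ℕ} (hF : F.IsHomogeneous D)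
    (h : deh F = 0) : F = 0 := by
  have h1 := aeval_bc hF (MvPolynomial.X : Fin 2 → MvPolynomial (Fin 2) K)
  rw [MvPolynomial.aeval_X_left_apply] at h1
  rw [h1]
  refine Finset.sum_eq_zero fun k hk => ?_
  rw [← coeff_deh hF (by have := Finset.mem_range.1 hk; omega), h, Polynomial.coeff_zero, zero_smul]

theorem eval_sw {D : ℕ} {u x : K} (hx : x ≠ 0) {q : Polynomial K} (hq : q.natDegree ≤ D) :
    (sw D u q).eval x = x ^ D * q.eval (u / x) := by
  rw [Polynomial.eval_eq_sum_range' (Nat.lt_succ_of_le hq), Finset.mul_sum]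
  unfold sw
  rw [Polynomial.eval_finsetSum]
  refine Finset.sum_congr rfl fun k hk => ?_
  have hk' : k ≤ D := by have := Finset.mem_range.1 hk; omega
  rw [Polynomial.eval_monomial]
  have h1 : x ^ D = x ^ (D - k) * x ^ k := by rw [← pow_add, Nat.sub_add_cancel hk']
  rw [h1, div_pow]
  field_simp

/-- **Transversality of binary forms**: two spaces of binary forms of degree `D`, of dimensions
with sum at most `D + 1`, meet only in `0` after a linear substitution in the second one. -/
theorem transversal_forms [CharZero K] {D : ℕ} (A B : Submodule K (MvPolynomial (Fin 2) K))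
    (hA : ∀ p ∈ A, p.IsHomogeneous D) (hB : ∀ q ∈ B, q.IsHomogeneous D)
    (hdim : finrank K A + finrank K B ≤ D + 1) :
    ∃ g : Matrix (Fin 2) (Fin 2) K, g.det ≠ 0 ∧ ∀ p ∈ A, ∀ q ∈ B,
      p = MvPolynomial.aeval (fun i => ∑ j, MvPolynomial.C (g i j) * MvPolynomial.X j) q →
      p = 0 ∧ q = 0 := by
  classical
  have hinjA : Function.Injective (deh.domRestrict A : A →ₗ[K] Polynomial K) := by
    rw [← LinearMap.ker_eq_bot, LinearMap.ker_eq_bot']
    intro p hp
    exact Subtype.ext (eq_zero_of_deh (hA p p.2) hp)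
  have hinjB : Function.Injective (deh.domRestrict B : B →ₗ[K] Polynomial K) := by
    rw [← LinearMap.ker_eq_bot, LinearMap.ker_eq_bot']
    intro p hp
    exact Subtype.ext (eq_zero_of_deh (hB p p.2) hp)
  have hdA : finrank K (A.map deh) = finrank K A := by
    have h1 := LinearMap.finrank_range_of_inj hinjA
    rw [← h1, LinearMap.range_domRestrict]
  have hdB : finrank K (B.map deh) = finrank K B := by
    have h1 := LinearMap.finrank_range_of_inj hinjB
    rw [← h1, LinearMap.range_domRestrict]
  obtain ⟨c, c', u, hu, H⟩ := transversal (D := D) (A.map deh) (B.map deh)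
    (by rintro _ ⟨p, hp, rfl⟩; exact natDegree_deh (hA p hp))
    (by rintro _ ⟨p, hp, rfl⟩; exact natDegree_deh (hB p hp)) (by rw [hdA, hdB]; exact hdim)
  refine ⟨!![c', u - c * c'; 1, -c], ?_, ?_⟩
  · rw [Matrix.det_fin_two_of]
    intro h
    apply hu
    linear_combination -h
  intro p hp q hq hpq
  have hpH := hA p hp
  have hqH := hB q hq
  have key : Polynomial.taylor c (deh p) = sw D u (Polynomial.taylor c' (deh q)) := by
    have hq' : (Polynomial.taylor c' (deh q)).natDegree ≤ D := by
      rw [Polynomial.natDegree_taylor]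
      exact natDegree_deh hqH
    have h0 : Polynomial.X * (Polynomial.taylor c (deh p) -
        sw D u (Polynomial.taylor c' (deh q))) = 0 := by
      apply Polynomial.funext
      intro x
      rw [Polynomial.eval_mul, Polynomial.eval_X, Polynomial.eval_zero]
      rcases eq_or_ne x 0 with rfl | hx
      · rw [zero_mul]
      rw [Polynomial.eval_sub, eval_sw hx hq', Polynomial.taylor_eval, Polynomial.taylor_eval]
      have e0 : ∀ (y : K) (r : MvPolynomial (Fin 2) K),
          (deh r).eval y = MvPolynomial.aeval ![y, 1] r := by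
        intro y r
        rw [deh_apply, ← Polynomial.coe_aeval_eq_eval, ← AlgHom.comp_apply,
          MvPolynomial.comp_aeval]
        congr 2
        funext i
        fin_cases i <;> simp
      have e3 : (MvPolynomial.aeval ![x + c, 1] p : K) = MvPolynomial.aeval ![c' * x + u, x] q := by
        rw [hpq, ← AlgHom.comp_apply, MvPolynomial.comp_aeval]
        congr 2
        funext i
        fin_cases i
        · simp [Fin.sum_univ_two]
          ring
        · simp [Fin.sum_univ_two]
      have e4 : (MvPolynomial.aeval ![c' * x + u, x] q : K) =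
          x ^ D * MvPolynomial.aeval ![u / x + c', 1] q := by
        rw [aeval_bc hqH, aeval_bc hqH, Finset.mul_sum]
        refine Finset.sum_congr rfl fun k hk => ?_
        have hk' : k ≤ D := by have := Finset.mem_range.1 hk; omega
        simp only [Matrix.cons_val_zero, Matrix.cons_val_one, one_pow, mul_one, smul_eq_mul]
        have h1 : x ^ D = x ^ (D - k) * x ^ k := by rw [← pow_add, Nat.sub_add_cancel hk']
        have h2 : (c' * x + u) = x * (u / x + c') := by field_simp; ring
        rw [h1, h2, mul_pow]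
        ring
      rw [e0, e0, e3, e4, sub_self, mul_zero]
    rcases mul_eq_zero.1 h0 with h1 | h1
    · exact absurd h1 Polynomial.X_ne_zero
    · exact sub_eq_zero.1 h1
  obtain ⟨h1, h2⟩ := H _ (Submodule.mem_map_of_mem hp) _ (Submodule.mem_map_of_mem hq) key
  exact ⟨eq_zero_of_deh hpH h1, eq_zero_of_deh hqH h2⟩

end Pool.Agent.TH552.BB
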